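import Mathlib

/-!
# Separating two cofinality invariants of balleans

For the ballean on `ℕ` of all locally finite relations (all `E[x]` and `E⁻¹[x]` finite) the
invariant `cof_⋆`, the supremum over the subsets `A` of `cof_*(𝓔[A])`, is `1`, while `cof_*(𝓔)` is
uncountable.
-/

set_option autoImplicit false

open Set Cardinal

universe u

namespace Pool.Agent.Results.MP_fb12c6_gt.LocallyFiniteBallean

/-- `E[x]` -/
def ball {X : Type u} (E : Set (X × X)) (x : X) : Set X := {y | (x, y) ∈ E}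

/-- `E[A]` -/
def ballSet {X : Type u} (E : Set (X × X)) (A : Set X) : Set X := {y | ∃ a ∈ A, (a, y) ∈ E}

/-- A ballean on `X`: a family of subsets of `X × X` (entourages) which all contain the diagonal,
such that for all entourages `E`, `F` some entourage contains `E ∘ F⁻¹`, and whose union is
`X × X`. -/
structure Ballean (X : Type u) where
  /-- the entourages -/
  ent : Set (Set (X × X))
  refl : ∀ E ∈ ent, ∀ x, (x, x) ∈ E
  comp : ∀ E ∈ ent, ∀ F ∈ ent, ∃ D ∈ ent, ∀ x y z, (x, z) ∈ E → (y, z) ∈ F → (x, y) ∈ D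
  cover : ∀ x y, ∃ E ∈ ent, (x, y) ∈ E

variable {X : Type u}

/-- `B` is bounded: `B ⊆ E[x]` for some entourage `E` and some `x`. -/
def Ballean.IsBounded (b : Ballean X) (B : Set X) : Prop := ∃ E ∈ b.ent, ∃ x, B ⊆ ball E x

/-- The square of a ballean: the entourages are the sets of the pairs `((x,y),(x',y'))` with
`(x,x') ∈ E₁` and `(y,y') ∈ E₂`, for entourages `E₁`, `E₂`. -/
def Ballean.square (b : Ballean X) : Ballean (X × X) where
  ent := {W | ∃ E₁ ∈ b.ent, ∃ E₂ ∈ b.ent, W = {p | (p.1.1, p.2.1) ∈ E₁ ∧ (p.1.2, p.2.2) ∈ E₂}}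
  refl := by
    rintro _ ⟨E₁, h₁, E₂, h₂, rfl⟩ ⟨x, y⟩
    exact ⟨b.refl _ h₁ x, b.refl _ h₂ y⟩
  comp := by
    rintro _ ⟨E₁, h₁, E₂, h₂, rfl⟩ _ ⟨F₁, k₁, F₂, k₂, rfl⟩
    obtain ⟨D₁, d₁, e₁⟩ := b.comp E₁ h₁ F₁ k₁
    obtain ⟨D₂, d₂, e₂⟩ := b.comp E₂ h₂ F₂ k₂
    refine ⟨_, ⟨D₁, d₁, D₂, d₂, rfl⟩, ?_⟩
    rintro ⟨x, x'⟩ ⟨y, y'⟩ ⟨z, z'⟩ ⟨h, h'⟩ ⟨k, k'⟩
    exact ⟨e₁ x y z h k, e₂ x' y' z' h' k'⟩
  cover := by
    rintro ⟨x, x'⟩ ⟨y, y'⟩
    obtain ⟨E, hE, h⟩ := b.cover x y
    obtain ⟨F, hF, k⟩ := b.cover x' y'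
    exact ⟨_, ⟨E, hE, F, hF, rfl⟩, h, k⟩

/-- `cof_*(𝓔)`: the least cardinality of a family `C` of entourages such that for every entourage
`E` there is `F ∈ C` for which `E \ F` is bounded in the square. -/
noncomputable def Ballean.cofStar (b : Ballean X) : Cardinal.{u} :=
  sInf {κ | ∃ C : Set (Set (X × X)), C ⊆ b.ent ∧ #C = κ ∧
    ∀ E ∈ b.ent, ∃ F ∈ C, b.square.IsBounded (E \ F)}

/-- `cof_*(𝓔[A])`: the least cardinality of a family `C` of entourages such that for every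
entourage `E` there is `F ∈ C` for which `E[A] \ F[A]` is bounded. -/
noncomputable def Ballean.cofStarAt (b : Ballean X) (A : Set X) : Cardinal.{u} :=
  sInf {κ | ∃ C : Set (Set (X × X)), C ⊆ b.ent ∧ #C = κ ∧
    ∀ E ∈ b.ent, ∃ F ∈ C, b.IsBounded (ballSet E A \ ballSet F A)}

/-- `cof_⋆(𝓔)`: the supremum of `cof_*(𝓔[A])` over all subsets `A`. -/
noncomputable def Ballean.cofBigStar (b : Ballean X) : Cardinal.{u} :=
  ⨆ A : Set X, b.cofStarAt A

/-- the ballean of all locally finite relations on `ℕ` -/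
def locFin : Ballean ℕ where
  ent := {E | (∀ x, (x, x) ∈ E) ∧ ∀ x, {y | (x, y) ∈ E}.Finite ∧ {y | (y, x) ∈ E}.Finite}
  refl := fun E hE => hE.1
  comp := by
    rintro E ⟨hE1, hE2⟩ F ⟨hF1, hF2⟩
    refine ⟨{p | ∃ z, (p.1, z) ∈ E ∧ (p.2, z) ∈ F}, ⟨fun x => ⟨x, hE1 x, hF1 x⟩, fun x => ⟨?_, ?_⟩⟩,
      fun x y z h k => ⟨z, h, k⟩⟩
    · have : {y | (x, y) ∈ {p : ℕ × ℕ | ∃ z, (p.1, z) ∈ E ∧ (p.2, z) ∈ F}} =
          ⋃ z ∈ {z | (x, z) ∈ E}, {y | (y, z) ∈ F} := by
        ext y; simp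
      rw [this]
      exact (hE2 x).1.biUnion fun z _ => (hF2 z).2
    · have : {y | (y, x) ∈ {p : ℕ × ℕ | ∃ z, (p.1, z) ∈ E ∧ (p.2, z) ∈ F}} =
          ⋃ z ∈ {z | (x, z) ∈ F}, {y | (y, z) ∈ E} := by
        ext y; simp [and_comm]
      rw [this]
      exact (hF2 x).1.biUnion fun z _ => (hE2 z).2
  cover := by
    intro x y
    refine ⟨{p | p.1 = p.2 ∨ (p.1 = x ∧ p.2 = y)}, ⟨fun z => Or.inl rfl, fun z => ⟨?_, ?_⟩⟩,
      Or.inr ⟨rfl, rfl⟩⟩
    · refine (Set.toFinite {z, y}).subset ?_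
      rintro w (h | ⟨-, h⟩)
      · left; exact h.symm
      · right; exact h
    · refine (Set.toFinite {z, x}).subset ?_
      rintro w (h | ⟨h, -⟩)
      · left; exact h
      · right; exact h

/-- the diagonal -/
lemma diag_mem : {p : ℕ × ℕ | p.1 = p.2} ∈ locFin.ent :=
  ⟨fun _ => rfl, fun x => ⟨(Set.finite_singleton x).subset fun _ h => Eq.symm h,
    (Set.finite_singleton x).subset fun _ h => h⟩⟩

lemma bounded_of_finite {B : Set ℕ} (hB : B.Finite) : locFin.IsBounded B := by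
  refine ⟨{p | p.1 = p.2 ∨ (p.1 = 0 ∧ p.2 ∈ B)}, ⟨fun z => Or.inl rfl, fun z => ⟨?_, ?_⟩⟩, 0,
    fun y hy => Or.inr ⟨rfl, hy⟩⟩
  · refine ((Set.finite_singleton z).union hB).subset ?_
    rintro w (h | ⟨-, h⟩)
    · left; exact h.symm
    · right; exact h
  · refine (Set.toFinite {z, 0}).subset ?_
    rintro w (h | ⟨h, -⟩)
    · left; exact h
    · right; exact h

lemma finite_of_bounded_sq {W : Set (ℕ × ℕ)} (hW : locFin.square.IsBounded W) : W.Finite := by
  obtain ⟨_, ⟨E₁, h₁, E₂, h₂, rfl⟩, ⟨x, y⟩, h⟩ := hW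
  refine ((h₁.2 x).1.prod (h₂.2 y).1).subset fun p hp => ?_
  exact h hp

lemma cofStarAt_eq (A : Set ℕ) : locFin.cofStarAt A = 1 := by
  apply le_antisymm
  · -- a single entourage is enough
    have key : ∃ F ∈ locFin.ent, ∀ E ∈ locFin.ent,
        locFin.IsBounded (ballSet E A \ ballSet F A) := by
      by_cases hA : A.Finite
      · refine ⟨_, diag_mem, fun E hE => bounded_of_finite (Set.Finite.subset ?_ sdiff_subset)⟩
        have : ballSet E A = ⋃ a ∈ A, {y | (a, y) ∈ E} := by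
          ext y; simp [ballSet]
        rw [this]
        exact hA.biUnion fun a _ => (hE.2 a).1
      · have hinf : ({n | n ∈ A} : Set ℕ).Infinite := hA
        set f := Nat.nth (fun n => n ∈ A) with hf
        have hinj : Function.Injective f := Nat.nth_injective hinf
        have hmem : ∀ n, f n ∈ A := fun n => Nat.nth_mem_of_infinite hinf n
        refine ⟨{p | p.1 = p.2 ∨ p.1 = f p.2}, ⟨fun z => Or.inl rfl, fun z => ⟨?_, ?_⟩⟩, ?_⟩
        · have h1 : {y | z = f y}.Finite := by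
            refine Set.Subsingleton.finite ?_
            intro a ha b hb
            exact hinj (ha.symm.trans hb)
          refine ((Set.finite_singleton z).union h1).subset ?_
          rintro w (h | h)
          · left; exact h.symm
          · right; exact h
        · refine (Set.toFinite {z, f z}).subset ?_
          rintro w (h | h)
          · left; exact h
          · right; exact h
        · intro E _
          refine bounded_of_finite ?_
          have : ballSet E A \ ballSet {p : ℕ × ℕ | p.1 = p.2 ∨ p.1 = f p.2} A = ∅ := by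
            rw [Set.sdiff_eq_empty]
            intro y _
            exact ⟨f y, hmem y, Or.inr rfl⟩
          rw [this]
          exact Set.finite_empty
    obtain ⟨F, hF, h⟩ := key
    refine csInf_le' ⟨{F}, by simpa using hF, by simp, fun E hE => ⟨F, rfl, h E hE⟩⟩
  · refine le_csInf ?_ ?_
    · exact ⟨_, locFin.ent, subset_rfl, rfl, fun E hE => ⟨E, hE, by
        rw [Set.sdiff_self]; exact bounded_of_finite Set.finite_empty⟩⟩
    · rintro _ ⟨C, -, rfl, hC⟩
      obtain ⟨F, hF, -⟩ := hC _ diag_mem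
      rw [Cardinal.one_le_iff_ne_zero, Ne, Cardinal.mk_eq_zero_iff, not_isEmpty_iff]
      exact ⟨⟨F, hF⟩⟩

/-- no countable family of entourages is cofinal modulo bounded sets -/
lemma diagonal (g : ℕ → Set (ℕ × ℕ)) (hg : ∀ n, g n ∈ locFin.ent) :
    ∃ E ∈ locFin.ent, ∀ n, (E \ g n).Infinite := by
  -- `y k` is greater than all `y j`, `j < k`, and `(k, y k)` is in none of `g 0, …, g k`
  have hstep : ∀ (k : ℕ) (m : ℕ), ∃ y, m < y ∧ ∀ n ≤ k, (k, y) ∉ g n := by
    intro k m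
    have hfin : (⋃ n ∈ Finset.range (k + 1), {y | (k, y) ∈ g n}).Finite :=
      (Finset.finite_toSet _).biUnion fun n _ => ((hg n).2 k).1
    obtain ⟨y, hy1, hy2⟩ := (hfin.union (Set.finite_Iic m)).infinite_compl.nonempty.imp
      fun y hy => (not_or.1 hy)
    refine ⟨y, not_le.1 hy2, fun n hn h => hy1 ?_⟩
    exact Set.mem_biUnion (Finset.mem_coe.2 (Finset.mem_range.2 (Nat.lt_succ_of_le hn))) h
  choose Y hY1 hY2 using hstep
  let y : ℕ → ℕ := fun k => Nat.rec (Y 0 0) (fun k z => Y (k + 1) z) k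
  have hy : StrictMono y := strictMono_nat_of_lt_succ fun k => hY1 (k + 1) (y k)
  have hyg : ∀ k, ∀ n ≤ k, (k, y k) ∉ g n := by
    intro k
    cases k with
    | zero => exact hY2 0 0
    | succ k => exact hY2 (k + 1) (y k)
  refine ⟨{p | p.1 = p.2 ∨ p.2 = y p.1}, ⟨fun z => Or.inl rfl, fun z => ⟨?_, ?_⟩⟩, fun n => ?_⟩
  · refine ((Set.finite_singleton (y z)).insert z).subset ?_
    rintro w (h | h)
    · left; exact h.symm
    · right; exact h
  · have h1 : {x | z = y x}.Finite := by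
      refine Set.Subsingleton.finite ?_
      intro a ha b hb
      exact hy.injective (ha.symm.trans hb)
    refine ((Set.finite_singleton z).union h1).subset ?_
    rintro w (h | h)
    · left; exact h
    · right; exact h
  · have h1 : (fun k => (k, y k)) '' Set.Ici n ⊆
        {p : ℕ × ℕ | p.1 = p.2 ∨ p.2 = y p.1} \ g n := by
      rintro _ ⟨k, hk, rfl⟩
      exact ⟨Or.inr rfl, hyg k n hk⟩
    refine Set.Infinite.mono h1 ?_
    refine (Set.Ici_infinite n).image ?_
    intro a _ b _ hab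
    exact congrArg Prod.fst hab

/-- There is a ballean (on a countable set) with `cof_⋆ = 1` and `cof_*` uncountable. -/
theorem result : ∃ b : Ballean ℕ, b.cofBigStar = 1 ∧ ℵ₀ < b.cofStar := by
  refine ⟨locFin, ?_, ?_⟩
  · unfold Ballean.cofBigStar
    simp only [cofStarAt_eq]
    exact ciSup_const
  · have hne : {κ : Cardinal | ∃ C : Set (Set (ℕ × ℕ)), C ⊆ locFin.ent ∧ #C = κ ∧
        ∀ E ∈ locFin.ent, ∃ F ∈ C, locFin.square.IsBounded (E \ F)}.Nonempty := by
      refine ⟨_, locFin.ent, subset_rfl, rfl, fun E hE => ⟨E, hE, ?_⟩⟩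
      rw [Set.sdiff_self]
      obtain ⟨W, hW, -⟩ := locFin.square.cover (0, 0) (0, 0)
      exact ⟨W, hW, (0, 0), Set.empty_subset _⟩
    obtain ⟨C, hC, hκ, h⟩ := csInf_mem hne
    show ℵ₀ < sInf _
    rw [← hκ]
    by_contra hcon
    push Not at hcon
    have hcount : C.Countable := by rwa [Cardinal.mk_le_aleph0_iff] at hcon
    have hCne : C.Nonempty := by
      obtain ⟨F, hF, -⟩ := h _ diag_mem
      exact ⟨F, hF⟩
    obtain ⟨g, hg⟩ := hcount.exists_eq_range hCne
    have hg' : ∀ n, g n ∈ locFin.ent := fun n => hC (by rw [hg]; exact mem_range_self n)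
    obtain ⟨E, hE, hinf⟩ := diagonal g hg'
    obtain ⟨F, hF, hb⟩ := h E hE
    rw [hg] at hF
    obtain ⟨n, rfl⟩ := hF
    exact hinf n (finite_of_bounded_sq hb)

end Pool.Agent.Results.MP_fb12c6_gt.LocallyFiniteBallean
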